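import Mathlib
import Pool.Agent.Helper30.CIR.Goals

/-! # Project CIR, packet NEG -/

set_option autoImplicit false

open Set Filter Topology MeasureTheory

open scoped ContDiff

namespace Pool.Agent.Helper26.CIR

open Pool.Agent.Helper56.RZ Pool.Agent.Helper30.CIR

variable {K : ℕ} {s : WithTop ℕ∞} {M : Set (E K)} {A : ℝ → E K → E K}

/-- the zeros of the generator are the fixed points of the flow -/
theorem gen_eq_zero_iff (hXF : StmtXF) (hs : 1 ≤ s) (hA : Flow s M A) {x : E K} (hx : x ∈ M) :
    gen A x = 0 ↔ ∀ t, A t x = x := by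
  obtain ⟨_, h2⟩ := hXF K s M A hs hA
  constructor
  · intro h0 t
    have key : ∀ t0, gen A (A t0 x) = 0 := by
      intro t0
      obtain ⟨-, -, h3, -⟩ := h2 x hx
      have hc : ContDiffOn ℝ 1 (A t0) M := by
        have h5 : ContDiffOn ℝ s (fun y : E K => ((t0, y) : ℝ × E K)) M :=
          contDiffOn_const.prodMk contDiffOn_id
        have h6 := hA.smooth.comp h5 (fun y hy => ⟨mem_univ _, hy⟩)
        exact h6.of_le hs
      have h4 := h3 (A t0) (A t0 x) (fun t => t) 1 (hA.maps t0) hc (hA.maps t0 hx)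
        (Filter.Eventually.of_forall fun t => by
          rw [← hA.add t0 t x hx, add_comm, hA.add t t0 x hx]) (hasDerivAt_id 0)
      rw [h0, map_zero, one_smul] at h4
      exact h4.symm
    have h5 : ∀ t, HasDerivAt (fun t => A t x) 0 t := fun t => by
      have := (h2 x hx).1 t
      rwa [key t] at this
    have h6 := is_const_of_deriv_eq_zero (fun t => (h5 t).differentiableAt)
      (fun t => (h5 t).deriv) t 0
    simpa [hA.zero x hx] using h6
  · intro h
    unfold gen
    have : (fun t => A t x) = fun _ => x := funext h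
    rw [this, deriv_const]

theorem gNEG : StmtITE → StmtDER → StmtXF → StmtNEG := by
  intro hITE hDER hXF K s M m f f' A F om c th Q hs hs' hM hm hf hcom hD hc hQ hth
  have hA := hD.flow
  obtain ⟨hXc, hX⟩ := hXF K s M A hs hA
  obtain ⟨-, hkc, hkb⟩ := hDER K s M A F om c th hs hs' hD hc
  obtain ⟨-, hite⟩ := hITE K s M A f f' F om c th hs hs' hD hc hf hcom
  set g := gg f A c om th F with hg
  have hgM : MapsTo g M M := fun x hx => hf.maps (hA.maps _ hx)
  have hgn : ∀ n, MapsTo (g^[n]) M M := fun n => hgM.iterate n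
  -- the generator does not vanish along the orbit
  have hback : ∀ x ∈ M, gen A (g x) = 0 → gen A x = 0 := by
    intro x hx h0
    rw [gen_eq_zero_iff hXF hs hA (hgM hx)] at h0
    rw [gen_eq_zero_iff hXF hs hA hx]
    intro t
    have h1 : ∀ u : ℝ, A t (f (A u x)) = f (A u x) → A t x = x := by
      intro u h2
      have hux := hA.maps u hx
      rw [← hcom t _ hux] at h2
      have h3 : A t (A u x) = A u x := by
        have := congrArg f' h2
        rwa [hf.left _ (hA.maps t hux), hf.left _ hux] at this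
      have h4 := congrArg (A (-u)) h3
      rw [← hA.add t u x hx, ← hA.add (-u) (t + u) x hx, ← hA.add (-u) u x hx] at h4
      have h5 : -u + (t + u) = t := by ring
      have h6 : -u + u = 0 := by ring
      rwa [h5, h6, hA.zero x hx] at h4
    exact h1 _ (h0 t)
  have hback' : ∀ n, ∀ x ∈ M, gen A (g^[n] x) = 0 → gen A x = 0 := by
    intro n
    induction n with
    | zero => intro x _ h; exact h
    | succ n ih =>
      intro x hx h
      rw [Function.iterate_succ_apply] at h
      exact hback x hx (ih (g x) (hgM hx) h)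
  -- products
  have hkpos : ∀ x ∈ M, 0 < kap c F x := fun x hx => lt_of_lt_of_le (by norm_num) (hkb x hx).1
  have hDpos : ∀ n, ∀ x ∈ M, 0 < ∏ k ∈ Finset.range n, kap c F (g^[k] x) := fun n x hx =>
    Finset.prod_pos fun k _ => hkpos _ (hgn k hx)
  have hlog : ∀ n, ∀ x ∈ M, Real.log (∏ k ∈ Finset.range n, kap c F (g^[k] x)) =
      ∑ k ∈ Finset.range n, Real.log (kap c F (g^[k] x)) := fun n x hx =>
    Real.log_prod fun k _ => (hkpos _ (hgn k hx)).ne'
  have hfwd : ∀ n, ∀ x ∈ M, gen A x = 0 → gen A (g^[n] x) = 0 := by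
    intro n x hx h0
    have h1 := hite n x hx
    rw [h0, map_zero] at h1
    exact (smul_eq_zero.1 h1.symm).resolve_left (hDpos n x hx).ne'
  have hzero : ∀ n, ∀ x ∈ M, gen A x = 0 →
      ∑ k ∈ Finset.range n, Real.log (kap c F (g^[k] x)) = 0 := by
    intro n x hx h0
    refine Finset.sum_eq_zero fun k _ => ?_
    have h1 : F (g^[k] x) = 0 :=
      (hX _ (hgn k hx)).2.2.2 F om hD.eig hD.pos.ne' (hfwd k x hx h0)
    simp [kap, h1]
  -- bound of the generator
  obtain ⟨C0, hC0⟩ : ∃ C0 : ℝ, ∀ x ∈ M, ‖gen A x‖ ≤ C0 := hM.exists_bound_of_continuousOn hXc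
  set C := max C0 1 with hCdef
  have hC1 : 1 ≤ C := le_max_right _ _
  have hCb : ∀ x ∈ M, ‖gen A x‖ ≤ C := fun x hx => (hC0 x hx).trans (le_max_left _ _)
  have hupper : ∀ n : ℕ, ∀ x ∈ M, gen A x ≠ 0 →
      Real.log ‖der M (g^[n]) x (gen A x)‖ / n ≤
        (∑ k ∈ Finset.range n, Real.log (kap c F (g^[k] x))) / n + Real.log C / n := by
    intro n x hx h0
    have h1 : gen A (g^[n] x) ≠ 0 := fun h => h0 (hback' n x hx h)
    rw [hite n x hx, norm_smul, Real.norm_of_nonneg (hDpos n x hx).le,
      Real.log_mul (hDpos n x hx).ne' (norm_ne_zero_iff.2 h1), hlog n x hx, ← add_div]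
    refine div_le_div_of_nonneg_right ?_ (Nat.cast_nonneg n)
    have h2 := Real.log_le_log (norm_pos_iff.2 h1) (hCb _ (hgn n hx))
    linarith
  have hCn : Tendsto (fun n : ℕ => Real.log C / n) atTop (𝓝 0) :=
    tendsto_const_div_atTop_nhds_zero_nat _
  have haeM : ∀ᵐ x ∂m, x ∈ M := by
    rw [ae_iff]
    exact hm
  constructor
  · -- first part
    intro hae
    apply hth
    filter_upwards [hae, haeM] with x hx hxM lam hlam
    by_cases h0 : gen A x = 0
    · refine Filter.Eventually.of_forall fun n => ?_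
      rw [hzero n x hxM h0, zero_div]
      exact hlam.le
    · by_contra hcon
      apply hx
      refine ⟨gen A x, hQ x hxM, h0, lam / 2, by linarith, ?_⟩
      rw [Filter.not_eventually] at hcon
      have h1 : ∀ᶠ n : ℕ in atTop, Real.log C / n < - (lam / 2) :=
        hCn.eventually_lt_const (by linarith)
      refine (hcon.and_eventually h1).mono fun n hn => ?_
      have h2 := hupper n x hxM h0
      obtain ⟨h3, h4⟩ := hn
      rw [not_le] at h3
      linarith
  · -- second part
    intro μ hμ
    obtain ⟨hμp, hμM, hbas⟩ := hμ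
    have hφ : ContinuousOn (fun y => Real.log (kap c F y)) M :=
      hkc.log fun x hx => (hkpos x hx).ne'
    have hlim : ∀ᵐ x ∂m, Tendsto
        (fun n : ℕ => (∑ k ∈ Finset.range n, Real.log (kap c F (g^[k] x))) / n) atTop
        (𝓝 (∫ y, Real.log (kap c F y) ∂μ)) := by
      filter_upwards [hbas] with x hx
      exact hx _ hφ
    set lam0 := ∫ y, Real.log (kap c F y) ∂μ with hlam0
    have hneg : lam0 < 0 := by
      by_contra hcon
      rw [not_lt] at hcon
      apply hth
      filter_upwards [hlim] with x hx lam hlam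
      exact (hx.eventually_const_lt (lt_of_lt_of_le hlam hcon)).mono fun n hn => hn.le
    refine ⟨lam0 / 2, by linarith, ?_⟩
    filter_upwards [hlim, haeM] with x hx hxM
    have h0 : gen A x ≠ 0 := by
      intro h0
      have h1 : Tendsto (fun n : ℕ => (∑ k ∈ Finset.range n,
          Real.log (kap c F (g^[k] x))) / (n : ℝ)) atTop (𝓝 0) := by
        refine tendsto_const_nhds.congr fun n => ?_
        rw [hzero n x hxM h0, zero_div]
      have := tendsto_nhds_unique hx h1
      linarith
    refine ⟨gen A x, hQ x hxM, h0, ?_⟩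
    have h1 : ∀ᶠ n : ℕ in atTop, Real.log C / n < - lam0 / 4 :=
      hCn.eventually_lt_const (by linarith)
    have h2 : ∀ᶠ n : ℕ in atTop, (∑ k ∈ Finset.range n,
        Real.log (kap c F (g^[k] x))) / (n : ℝ) < 3 * lam0 / 4 :=
      hx.eventually_lt_const (by linarith)
    filter_upwards [h1, h2] with n h3 h4
    have h5 := hupper n x hxM h0
    linarith

end Pool.Agent.Helper26.CIR
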